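import Pool.Agent.H61.KV.TS

/-!
# Kuiper board KV, module STK

The points of `Mh m` over the interior of the base are lowest points.
-/

open Topology Set
open Pool.Agent.H59 Pool.Agent.H64.LB Pool.Agent.H61.KU Pool.Agent.H61.KV

namespace Pool.Agent.H89.KV.STK

/-- lowest points scale -/
theorem low_smul {C : Set (E4 × E5)} (hC : IsCC C) {g : E4} {b : E5} (h : Low C g b) {c : ℝ}
    (hc : 0 < c) : Low C (c • g) (c • b) := by
  intro a
  have hci : 0 ≤ c⁻¹ := (inv_pos.mpr hc).le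
  have e1 : (a, c • b) ∈ C ↔ (c⁻¹ • a, b) ∈ C := by
    constructor
    · intro h1
      have h2 := hC.smul c⁻¹ hci _ h1
      rwa [Prod.smul_mk, smul_smul, inv_mul_cancel₀ hc.ne', one_smul] at h2
    · intro h1
      have h2 := hC.smul c hc.le _ h1
      rwa [Prod.smul_mk, smul_smul, mul_inv_cancel₀ hc.ne', one_smul] at h2
  have e2 : (c⁻¹ • a - g, (0 : E5)) ∈ C ↔ (a - c • g, (0 : E5)) ∈ C := by
    constructor
    · intro h1
      have h2 := hC.smul c hc.le _ h1
      rwa [Prod.smul_mk, smul_sub, smul_smul, mul_inv_cancel₀ hc.ne', one_smul, smul_zero] at h2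
    · intro h1
      have h2 := hC.smul c⁻¹ hci _ h1
      rwa [Prod.smul_mk, smul_sub, smul_smul, inv_mul_cancel₀ hc.ne', one_smul, smul_zero] at h2
  rw [e1, h (c⁻¹ • a), e2]

/-- lowest points are unique -/
theorem low_unique {C : Set (E4 × E5)} (hC : IsCC C) {g g' : E4} {b : E5} (h : Low C g b)
    (h' : Low C g' b) : g = g' := by
  have hg : (g, b) ∈ C := by
    rw [h g, sub_self]
    exact hC.zero
  have hg' : (g', b) ∈ C := by
    rw [h' g', sub_self]
    exact hC.zero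
  have h1 : (g - g', (0 : E5)) ∈ C := (h' g).1 hg
  have h2 : (g' - g, (0 : E5)) ∈ C := (h g').1 hg'
  obtain ⟨e, he⟩ := hC.pos
  by_contra hne
  have n1 : (g - g', (0 : E5)) ≠ 0 := by
    intro h0
    have := congrArg Prod.fst h0
    exact hne (sub_eq_zero.mp this)
  have n2 : (g' - g, (0 : E5)) ≠ 0 := by
    intro h0
    have := congrArg Prod.fst h0
    exact hne (sub_eq_zero.mp this).symm
  have p1 := he _ h1 n1
  have p2 := he _ h2 n2
  have hs : (g - g', (0 : E5)) + (g' - g, (0 : E5)) = 0 := by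
    rw [Prod.mk_add_mk]
    simp
  have := congrArg e hs
  rw [map_add, map_zero] at this
  linarith

/-- the origin is not in the interior of the base -/
theorem zero_notMem (h9 : T_SPP) (h10 : T_CNC) (h12 : T_P1N) (m : PN 2 → E4 × E5) (p : E4 × E5)
    (hS : Std m p) : (0 : E5) ∉ interior (Bs (Cn m)) := by
  intro h0
  obtain ⟨hC, hspan, -⟩ := h10 _ m hS.cfg
  have hp : p ∈ Cn m := hS.ms.1
  have hne : Sp (Cn m) p ≠ ⊤ := by
    intro htop
    have h4 := (h12 _ m hS.cfg p hS.ms).1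
    rw [htop, finrank_top, hS.cfg.rank] at h4
    omega
  obtain ⟨ξ, hξ, hpos, hξp⟩ := h9 _ _ p hC hspan hp hne
  have hv : ∀ v ∈ Sp (Cn m) p, ξ v = 0 := by
    intro v hv
    have hle : Sp (Cn m) p ≤ LinearMap.ker ξ := by
      refine Submodule.span_le.mpr ?_
      rintro q ⟨hq, c, hc, hcq⟩
      have a1 := hpos q hq
      have a2 := hpos _ hcq
      rw [map_sub, map_smul, hξp, smul_zero] at a2
      have : ξ q = 0 := le_antisymm (by linarith) a1
      exact this
    exact hle hv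
  have ha : ∀ a : E4, ξ (a, (0 : E5)) = 0 := fun a => hv _ ((hS.spn _).2 rfl)
  have hsplit : ∀ (a : E4) (b : E5), ξ (a, b) = ξ ((0 : E4), b) := by
    intro a b
    have : ((a, b) : E4 × E5) = (a, (0 : E5)) + ((0 : E4), b) := by
      rw [Prod.mk_add_mk, add_zero, zero_add]
    rw [this, map_add, ha, zero_add]
  have hB : ∀ b ∈ Bs (Cn m), 0 ≤ ξ ((0 : E4), b) := by
    rintro b ⟨a, hab⟩
    rw [← hsplit a b]
    exact hpos _ hab
  apply hξ
  refine LinearMap.ext fun v => ?_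
  obtain ⟨a, b⟩ := v
  rw [hsplit, LinearMap.zero_apply]
  -- the line through `b`
  have hcont : Continuous fun t : ℝ => t • b := continuous_id.smul continuous_const
  have hnb : interior (Bs (Cn m)) ∈ 𝓝 ((0 : ℝ) • b) := by
    rw [zero_smul]
    exact isOpen_interior.mem_nhds h0
  have hev := hcont.continuousAt.eventually_mem hnb
  obtain ⟨ε, hε, hball⟩ := Metric.eventually_nhds_iff.mp hev
  have hlin : ∀ t : ℝ, ξ ((0 : E4), t • b) = t * ξ ((0 : E4), b) := by
    intro t
    have : (((0 : E4), t • b) : E4 × E5) = t • ((0 : E4), b) := by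
      rw [Prod.smul_mk, smul_zero]
    rw [this, map_smul, smul_eq_mul]
  have q1 : 0 ≤ ξ ((0 : E4), (ε / 2) • b) := by
    refine hB _ (interior_subset (hball ?_))
    rw [Real.dist_eq, sub_zero, abs_of_pos (by linarith)]
    linarith
  have q2 : 0 ≤ ξ ((0 : E4), (-(ε / 2)) • b) := by
    refine hB _ (interior_subset (hball ?_))
    rw [Real.dist_eq, sub_zero, abs_neg, abs_of_pos (by linarith)]
    linarith
  rw [hlin] at q1 q2
  by_contra hne'
  rcases lt_or_gt_of_ne hne' with h | h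
  · nlinarith [mul_neg_of_pos_of_neg (show 0 < ε / 2 by linarith) h]
  · nlinarith [mul_pos (show 0 < ε / 2 by linarith) h]

/-- lowest points over the base are in `Mh m` -/
theorem low_mem (h7 : T_STM) (h11 : T_FCB) (h10 : T_CNC) (m : PN 2 → E4 × E5) (p : E4 × E5)
    (hS : Std m p) (g : E4) (b : E5) (hg : Low (Cn m) g b) : (g, b) ∈ Mh m := by
  obtain ⟨hC, -⟩ := h10 _ m hS.cfg
  obtain ⟨-, -, -, -, hF, -⟩ := h11 _ (Cn m) p hC hS.ms.1
  refine (h7 _ m hS.cfg p hS.ms (g, b) (g, b) ?_).2.1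
  rintro ⟨a, b'⟩
  constructor
  · rintro ⟨hr, hs⟩
    have hb : b' - b = 0 := (hS.spn _).1 hs
    have hbb : b' = b := sub_eq_zero.mp hb
    subst hbb
    refine hF _ ?_ hs
    have := (hg a).1 hr
    rwa [Prod.mk_sub_mk, sub_self]
  · intro hr
    have hs : (a, b') - (g, b) ∈ Sp (Cn m) p := Submodule.subset_span hr
    have hb : b' - b = 0 := (hS.spn _).1 hs
    have hbb : b' = b := sub_eq_zero.mp hb
    subst hbb
    refine ⟨(hg a).2 ?_, hs⟩
    have := hr.1
    rwa [Prod.mk_sub_mk, sub_self] at this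

theorem pf_STK (h1 : T_STQ) (h2 : T_GCT) (h3 : H61.KV.T_SIM) (h4 : T_CHN) (h5 : T_OPN) (h6 : T_PRE)
    (h7 : T_STM) (h8 : T_BSI) (h9 : T_SPP) (h10 : T_CNC) (h11 : T_FCB) (h12 : T_P1N)
    (h13 : T_XHO) : T_STK := by
  intro m p hS x hx
  obtain ⟨hC, hspan, hmC, hm0, hMC, -⟩ := h10 _ m hS.cfg
  have hex := h1 m p hS
  choose! g hg using hex
  have hgc := h2 (Cn m) g hC hg
  have h0 := zero_notMem h9 h10 h12 m p hS
  obtain ⟨-, hconv, hcone, -, -⟩ := h8 (Cn m) hC hspan
  set b1 : E5 := (m x).2 with hb1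
  have hb1ne : b1 ≠ 0 := by
    intro h
    rw [h] at hx
    exact h0 hx
  obtain ⟨κ, hκ1, hκ2⟩ := h3 (interior (Bs (Cn m))) b1 isOpen_interior hconv hcone hx hb1ne
  -- the set of the points over the simplicial cone
  have hAC := h4 _ m hS.cfg p hS.ms 4 (fun i => (κ i).comp (LinearMap.snd ℝ E4 E5)) le_rfl
    (by
      intro i q hq
      have hq2 : q.2 = 0 := (hS.spn q).1 (Submodule.subset_span hq)
      change κ i q.2 = 0
      rw [hq2, map_zero])
  set Wx : Set (PN 2) :=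
    {x : PN 2 | ∀ i, 0 < ((κ i).comp (LinearMap.snd ℝ E4 E5)) (m x)} with hWx
  have : PathConnectedSpace (PN 2) := h13.1
  have : PreconnectedSpace ↥Wx := h6 (PN 2) ↥Wx (inc Wx) hAC.1
  have hmemW : ∀ x' : PN 2, x' ∈ Wx ↔ ∀ i, 0 < κ i (m x').2 := fun x' => Iff.rfl
  have hWint : ∀ x' ∈ Wx, (m x').2 ∈ interior (Bs (Cn m)) := fun x' hx' => hκ2 _ hx'
  have hm := hS.cfg.cont
  -- the cone is open
  set O : Set E5 := {b | ∀ i, 0 < κ i b} with hO
  have hOo : IsOpen O := by
    have : O = ⋂ i, {b | 0 < κ i b} := by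
      ext b
      simp [hO]
    rw [this]
    refine isOpen_iInter_of_finite fun i => ?_
    exact isOpen_lt continuous_const (κ i).continuous_of_finiteDimensional
  have hOint : O ⊆ interior (Bs (Cn m)) := fun b hb => hκ2 b hb
  have hOs : ∀ c : ℝ, 0 < c → ∀ b ∈ O, c • b ∈ O := by
    intro c hc b hb i
    rw [map_smul, smul_eq_mul]
    exact mul_pos hc (hb i)
  have hgs : ∀ c : ℝ, 0 < c → ∀ b ∈ O, g (c • b) = c • g b := by
    intro c hc b hb
    exact low_unique hC (hg _ (hOint (hOs c hc b hb))) (low_smul hC (hg b (hOint hb)) hc)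
  set G : Set ↥Wx := {x' | (m x'.1).1 = g (m x'.1).2} with hG
  have hGclosed : IsClosed G := by
    refine isClosed_eq ?_ ?_
    · exact continuous_fst.comp (hm.comp continuous_subtype_val)
    · have c1 : Continuous fun x' : ↥Wx => (m x'.1).2 :=
        continuous_snd.comp (hm.comp continuous_subtype_val)
      exact hgc.comp_continuous c1 fun x' => hWint _ x'.2
  have hGopen : IsOpen G := by
    rw [isOpen_iff_mem_nhds]
    rintro ⟨x0, hx0W⟩ hx0
    have hx0' : (m x0).1 = g (m x0).2 := hx0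
    set b0 : E5 := (m x0).2 with hb0
    have hb0O : b0 ∈ O := hx0W
    have hb0ne : b0 ≠ 0 := by
      intro h
      have := hOint hb0O
      rw [h] at this
      exact h0 this
    have hn : inner ℝ b0 b0 ≠ 0 := fun h => hb0ne (inner_self_eq_zero.mp h)
    set η : E5 →ₗ[ℝ] ℝ := (inner ℝ b0 b0)⁻¹ • (innerₛₗ ℝ b0) with hη
    have hηb : η b0 = 1 := by
      rw [hη, LinearMap.smul_apply, smul_eq_mul]
      exact inv_mul_cancel₀ hn
    have hN := h5 m hS.cfg η O g hOo (hgc.mono hOint)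
      (fun b hb _ => low_mem h7 h11 h10 m p hS (g b) b (hg b (hOint hb)))
    have hx0N : x0 ∈ {x : PN 2 | ∃ (c : ℝ) (b : E5), 0 < c ∧ b ∈ O ∧ η b = 1 ∧
        m x = c • (g b, b)} := by
      refine ⟨1, b0, one_pos, hb0O, hηb, ?_⟩
      rw [one_smul]
      exact Prod.ext hx0' rfl
    have hnhd := hN.mem_nhds hx0N
    have hpre := continuous_subtype_val.continuousAt.preimage_mem_nhds
      (x := (⟨x0, hx0W⟩ : ↥Wx)) hnhd
    refine Filter.mem_of_superset hpre ?_
    rintro ⟨x', hx'W⟩ ⟨c, b, hc, hb, -, hmx⟩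
    change (m x').1 = g (m x').2
    have hmx' : m x' = c • (g b, b) := hmx
    rw [hmx', Prod.smul_mk]
    exact (hgs c hc b hb).symm
  have hGne : G.Nonempty := by
    have hb1O : b1 ∈ O := hκ1
    obtain ⟨c, x'', hc, he⟩ := low_mem h7 h11 h10 m p hS (g b1) b1 (hg b1 (hOint hb1O))
    have e2 : b1 = c • (m x'').2 := congrArg Prod.snd he
    have e1 : g b1 = c • (m x'').1 := congrArg Prod.fst he
    have hc0 : c ≠ 0 := by
      intro h
      rw [h, zero_smul] at e2
      exact hb1ne e2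
    have hcp : 0 < c := lt_of_le_of_ne hc (Ne.symm hc0)
    have e3 : (m x'').2 = c⁻¹ • b1 := by
      rw [e2, smul_smul, inv_mul_cancel₀ hc0, one_smul]
    have e4 : (m x'').1 = c⁻¹ • g b1 := by
      rw [e1, smul_smul, inv_mul_cancel₀ hc0, one_smul]
    have hx''W : x'' ∈ Wx := by
      rw [hmemW]
      have := hOs c⁻¹ (inv_pos.mpr hcp) b1 hb1O
      rw [← e3] at this
      exact this
    refine ⟨⟨x'', hx''W⟩, ?_⟩
    change (m x'').1 = g (m x'').2
    rw [e3, e4]
    exact (hgs c⁻¹ (inv_pos.mpr hcp) b1 hb1O).symm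
  have hGu : G = univ := IsClopen.eq_univ ⟨hGclosed, hGopen⟩ hGne
  have hxW : x ∈ Wx := hκ1
  have hxG : (⟨x, hxW⟩ : ↥Wx) ∈ G := by
    rw [hGu]
    trivial
  have hfin : (m x).1 = g b1 := hxG
  rw [hfin]
  exact hg b1 hx

end Pool.Agent.H89.KV.STK
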